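import Pool.Agent.W2helper20.BC.Stm2
import Pool.Agent.W2helper53.BC.Trace

/-!
# Project EN, pieces PULL and POW
-/

set_option autoImplicit false

namespace Pool.Agent.W4helper65.EN

open Set Metric MeasureTheory
open scoped ContDiff InnerProductSpace ENNReal
open Pool.Agent.Q176.BR Pool.Agent.W2helper20.BC Pool.Agent.W2helper53.BC

variable {n : ℕ}

theorem pull_apply (g' : Fld n) (ψ : E n → E n) (x v w : E n) :
    pull g' ψ x v w = g' (ψ x) (fderiv ℝ ψ x v) (fderiv ℝ ψ x w) := by
  simp [pull, ContinuousLinearMap.bilinearComp_apply]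

theorem semi_pull {g' : Fld n} {ψ : E n → E n} (hg' : IsMetric g') (hψ : IsFix ψ) :
    IsSemi (pull g' ψ) := by
  refine ⟨?_, ?_, ?_⟩
  · rw [contDiff_clm_apply_iff]
    intro v
    rw [contDiff_clm_apply_iff]
    intro w
    simp only [pull_apply]
    have h1 : ContDiff ℝ ∞ (fun x => g' (ψ x)) := hg'.smooth.comp hψ.smooth
    have h2 : ContDiff ℝ ∞ (fun x => fderiv ℝ ψ x) :=
      hψ.smooth.fderiv_right (m := ∞) (by simp)
    exact (h1.clm_apply (h2.clm_apply contDiff_const)).clm_apply (h2.clm_apply contDiff_const)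
  · intro x v w
    rw [pull_apply, pull_apply]
    exact hg'.symm _ _ _
  · intro x v
    rw [pull_apply]
    exact hg'.nonneg _ _

theorem lenGe_pull {g g' : Fld n} {ψ : E n → E n} (hg' : IsMetric g') (hψ : IsFix ψ)
    (hd : ∀ p ∈ bdM n, ∀ q ∈ bdM n, rdist g p q ≤ rdist g' p q) : LenGe g (pull g' ψ) := by
  intro c hc hM h0 h1
  have e : len (pull g' ψ) c = len g' (ψ ∘ c) := by
    unfold len
    refine intervalIntegral.integral_congr (fun t ht => ?_)
    rw [uIcc_of_le zero_le_one] at ht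
    have hd1 : HasDerivWithinAt c (derivWithin c (Icc 0 1) t) (Icc 0 1) t :=
      ((hc.differentiableOn (by simp)) t ht).hasDerivWithinAt
    have hd2 : HasFDerivAt ψ (fderiv ℝ ψ (c t)) (c t) :=
      (hψ.smooth.differentiable (by simp) (c t)).hasFDerivAt
    have hd3 := hd2.comp_hasDerivWithinAt t hd1
    have e1 := hd3.derivWithin (uniqueDiffOn_Icc (zero_lt_one (α := ℝ)) t ht)
    simp only [e1, pull_apply, Function.comp]
  rw [e]
  refine (hd _ h0 _ h1).trans ?_
  have h2 := rdist_le_len hg' (c := ψ ∘ c)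
    ((hψ.smooth.of_le (by simp)).comp_contDiffOn hc) (fun t ht => hψ.maps (hM t ht))
  simp only [Function.comp, hψ.fix _ h0, hψ.fix _ h1] at h2
  exact h2

/-! ### the trace -/

theorem trace_nonneg {a b : E n →L[ℝ] E n →L[ℝ] ℝ}
    (ha : ∀ v w, a v w = a w v) (ha' : ∀ v, v ≠ 0 → 0 < a v v)
    (hb' : ∀ v, 0 ≤ b v v) : 0 ≤ ((gram a)⁻¹ * gram b).trace := by
  obtain ⟨B, hB0, hB, haB⟩ := exists_act ha ha'
  have e1 : ∀ i, b (act B⁻¹ (bs i)) (act B⁻¹ (bs i)) = (B⁻¹.transpose * gram b * B⁻¹) i i := by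
    intro i
    have e2 : ∀ j, act B⁻¹ (bs i) j = B⁻¹ j i := by
      intro j
      rw [act_apply, bs]
      simp
    rw [form_eq_gram]
    simp only [e2, Matrix.mul_apply, Matrix.transpose_apply, Finset.sum_mul]
    rw [Finset.sum_comm]
    exact Finset.sum_congr rfl fun j _ => Finset.sum_congr rfl fun k _ => by ring
  have h3 : ∑ i, b (act B⁻¹ (bs i)) (act B⁻¹ (bs i)) = ((gram a)⁻¹ * gram b).trace := by
    rw [Finset.sum_congr rfl fun i _ => e1 i, hB, Matrix.mul_inv_rev]
    change (B⁻¹.transpose * gram b * B⁻¹).trace = _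
    rw [Matrix.trace_mul_comm, ← Matrix.mul_assoc, Matrix.transpose_nonsing_inv]
  rw [← h3]
  exact Finset.sum_nonneg (fun i _ => hb' _)

theorem contDiff_det {A : E n → Matrix (Fin n) (Fin n) ℝ}
    (hA : ∀ i j, ContDiff ℝ ∞ fun x => A x i j) : ContDiff ℝ ∞ fun x => (A x).det := by
  simp only [Matrix.det_apply]
  refine ContDiff.sum fun σ _ => ?_
  exact ContDiff.const_smul _ (contDiff_prod fun i _ => hA (σ i) i)

theorem contDiff_gram {h : Fld n} (hh : ContDiff ℝ ∞ h) (i j : Fin n) :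
    ContDiff ℝ ∞ fun x => gram (h x) i j := by
  simp only [gram_apply]
  exact (hh.clm_apply contDiff_const).clm_apply contDiff_const

theorem contDiff_rho {g : Fld n} (hg : IsMetric g) : ContDiff ℝ ∞ (rho g) :=
  contDiff_det (contDiff_gram hg.smooth)

theorem contDiff_Tr {g h : Fld n} (hg : IsMetric g) (hh : IsSemi h) :
    ContDiff ℝ ∞ (Tr g h) := by
  have hinv : ∀ i j, ContDiff ℝ ∞ fun x => (gram (g x))⁻¹ i j := by
    intro i j
    have e : ∀ x, (gram (g x))⁻¹ i j = (rho g x)⁻¹ * (gram (g x)).adjugate i j := by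
      intro x
      rw [Matrix.inv_def, Ring.inverse_eq_inv', Matrix.smul_apply, smul_eq_mul]
      rfl
    simp only [e]
    refine ((contDiff_rho hg).inv fun x => (hg.det_pos x).ne').mul ?_
    simp only [Matrix.adjugate_apply]
    apply contDiff_det
    intro k l
    by_cases hk : k = j
    · subst hk
      simp only [Matrix.updateRow_self]
      exact contDiff_const
    · simp only [Matrix.updateRow_ne hk]
      exact contDiff_gram hg.smooth k l
  have e : Tr g h = fun x => (∑ i, ∑ j, (gram (g x))⁻¹ i j * gram (h x) j i) / n := by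
    funext x
    simp only [Tr, Matrix.trace, Matrix.diag_apply, Matrix.mul_apply]
  rw [e]
  refine ContDiff.div_const (ContDiff.sum fun i _ => ContDiff.sum fun j _ => ?_) _
  exact (hinv i j).mul (contDiff_gram hh.smooth j i)

theorem Tr_nonneg {g h : Fld n} (hg : IsMetric g) (hh : IsSemi h) (x : E n) : 0 ≤ Tr g h x :=
  div_nonneg (trace_nonneg (hg.symm x) (hg.pos x) (hh.nonneg x)) (Nat.cast_nonneg n)

theorem p_PULL : P_PULL :=
  ⟨fun _ _ _ _ _ hg' hψ hd => ⟨semi_pull hg' hψ, lenGe_pull hg' hψ hd⟩,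
    fun _ _ _ hg hh => ⟨contDiff_Tr hg hh, Tr_nonneg hg hh⟩⟩

theorem p_POW : P_POW := by
  intro n g h p hp hg hh
  have hrho : Continuous (rho g) := (contDiff_rho hg).continuous
  have hTr : Continuous (Tr g h) := (contDiff_Tr hg hh).continuous
  have hint : ∀ f : E n → ℝ, Continuous f → IntegrableOn f (ball (0 : E n) 1) := fun f hf =>
    (hf.continuousOn.integrableOn_compact (isCompact_closedBall (0 : E n) 1)).mono_set
      ball_subset_closedBall
  have hp0 : 0 ≤ p / 2 := by linarith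
  have c1 : Continuous fun x => √(Tr g h x) * √(rho g x) := hTr.sqrt.mul hrho.sqrt
  have c2 : Continuous fun x => √(rho g x) := hrho.sqrt
  have c3 : Continuous fun x => (Tr g h x) ^ (p / 2) * √(rho g x) :=
    (hTr.rpow_const fun x => Or.inr hp0).mul hrho.sqrt
  unfold en vo
  rw [← integral_sub (hint _ c1) (hint _ c2), ← integral_sub (hint _ c3) (hint _ c2),
    ← integral_const_mul]
  refine setIntegral_mono_on ((hint _ (c1.sub c2)).const_mul p) (hint _ (c3.sub c2))
    measurableSet_ball (fun x _ => ?_)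
  have hT := Tr_nonneg hg hh x
  have hs := Real.sqrt_nonneg (Tr g h x)
  have h1 := one_add_mul_self_le_rpow_one_add (s := √(Tr g h x) - 1) (by linarith) hp
  have h2 : (1 + (√(Tr g h x) - 1)) ^ p = (Tr g h x) ^ (p / 2) := by
    rw [add_sub_cancel, Real.sqrt_eq_rpow, ← Real.rpow_mul hT]
    congr 1
    ring
  rw [h2] at h1
  have h3 := mul_le_mul_of_nonneg_right h1 (Real.sqrt_nonneg (rho g x))
  nlinarith

end Pool.Agent.W4helper65.EN
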